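import Pool.Agent.H158.RA.Defs

/-!
Modules over the free product `F⟨x, y, z⟩ * F[e]/(e² - e)` and the bimodules attached to them.
-/

set_option autoImplicit false

namespace Pool.Agent.H158.RA

universe u v w

/-- A module over the associative algebra `F⟨x, y, z, e | e² = e⟩`: a vector space with three
arbitrary endomorphisms `x`, `y`, `z` and an idempotent endomorphism `e`. -/
structure Quad (F : Type u) [Field F] where
  carrier : Type v
  [grp : AddCommGroup carrier]
  [mod : Module F carrier]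
  x : carrier →ₗ[F] carrier
  y : carrier →ₗ[F] carrier
  z : carrier →ₗ[F] carrier
  e : carrier →ₗ[F] carrier
  e_idem : ∀ m, e (e m) = e m

attribute [instance] Quad.grp Quad.mod

namespace Quad

variable {F : Type u} [Field F]

/-- A subspace stable under `x`, `y`, `z`, `e`. -/
def IsSub (Y : Quad.{u, v} F) (N : Submodule F Y.carrier) : Prop :=
  ∀ m ∈ N, Y.x m ∈ N ∧ Y.y m ∈ N ∧ Y.z m ∈ N ∧ Y.e m ∈ N

/-- Irreducibility (simplicity). -/
def IsIrred (Y : Quad.{u, v} F) : Prop :=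
  Nontrivial Y.carrier ∧ ∀ N : Submodule F Y.carrier, Y.IsSub N → N = ⊥ ∨ N = ⊤

/-- Isomorphism. -/
def Iso (Y : Quad.{u, v} F) (Y' : Quad.{u, w} F) : Prop :=
  ∃ φ : Y.carrier ≃ₗ[F] Y'.carrier, ∀ m, φ (Y.x m) = Y'.x (φ m) ∧ φ (Y.y m) = Y'.y (φ m) ∧
    φ (Y.z m) = Y'.z (φ m) ∧ φ (Y.e m) = Y'.e (φ m)

/-- The linear map `c` from 2 by 2 matrices to endomorphisms of `Y` with `c(E₀₁) = x`,
`c(E₁₀) = y`, `c(E₀₀) = z` and `c(1) = 1`. -/
def c (Y : Quad.{u, v} F) : Mat2 F →ₗ[F] Y.carrier →ₗ[F] Y.carrier where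
  toFun := fun b => b 0 1 • Y.x + b 1 0 • Y.y + b 0 0 • Y.z + b 1 1 • (LinearMap.id - Y.z)
  map_add' := by intro a b; ext m; simp only [Matrix.add_apply, LinearMap.add_apply,
    LinearMap.smul_apply, LinearMap.sub_apply, LinearMap.id_apply]; module
  map_smul' := by intro r a; ext m; simp only [Matrix.smul_apply, LinearMap.add_apply,
    LinearMap.smul_apply, LinearMap.sub_apply, LinearMap.id_apply, RingHom.id_apply, smul_eq_mul]
                  module

lemma c_apply (Y : Quad.{u, v} F) (b : Mat2 F) (m : Y.carrier) :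
    Y.c b m = b 0 1 • Y.x m + b 1 0 • Y.y m + b 0 0 • Y.z m + b 1 1 • (m - Y.z m) := rfl

@[simp] lemma c_one (Y : Quad.{u, v} F) (m : Y.carrier) : Y.c 1 m = m := by
  rw [c_apply]; simp

/-- The conjugation `b ↦ tr(b) 1 - b` (the adjugate) of 2 by 2 matrices. -/
def bar : Mat2 F →ₗ[F] Mat2 F where
  toFun := fun b => (b 0 0 + b 1 1) • 1 - b
  map_add' := by intro a b; simp only [Matrix.add_apply]; module
  map_smul' := by intro r a; simp only [Matrix.smul_apply, smul_eq_mul, RingHom.id_apply]; module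

lemma bar_apply (b : Mat2 F) : bar b = (b 0 0 + b 1 1) • (1 : Mat2 F) - b := rfl

@[simp] lemma bar_one : bar (1 : Mat2 F) = 1 := by
  rw [bar_apply]; ext i j; fin_cases i <;> fin_cases j <;> simp

section
variable (Y : Quad.{u, v} F)

/-- The space of the linear maps from 2 by 2 matrices to `Y`. -/
abbrev Hm : Type (max u v) := Mat2 F →ₗ[F] Y.carrier

/-- `nn y : b ↦ c(b) y` -/
def nn : Y.carrier →ₗ[F] Y.Hm := Y.c.flip

@[simp] lemma nn_apply (m : Y.carrier) (b : Mat2 F) : Y.nn m b = Y.c b m := rfl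

/-- `(rt a n)(b) = n (b a)` -/
def rt : Mat2 F →ₗ[F] Y.Hm →ₗ[F] Y.Hm :=
  LinearMap.mk₂ F (fun a n => n ∘ₗ LinearMap.mulRight F a)
    (by intro a b n; ext m; simp [mul_add])
    (by intro r a n; ext m; simp)
    (by intro a n n'; ext m; simp)
    (by intro r a n; ext m; simp)

@[simp] lemma rt_apply (a : Mat2 F) (n : Y.Hm) (b : Mat2 F) : Y.rt a n b = n (b * a) := rfl

/-- `(lt a n)(b) = n (bar(a) b) + c(a b - b a) n(1)` -/
def lt : Mat2 F →ₗ[F] Y.Hm →ₗ[F] Y.Hm :=
  LinearMap.mk₂ F (fun a n => n ∘ₗ LinearMap.mulLeft F (bar a) +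
      (Y.c.flip (n 1)) ∘ₗ (LinearMap.mulLeft F a - LinearMap.mulRight F a))
    (by intro a b n; ext m; simp [add_mul, mul_add]; abel)
    (by intro r a n; ext m; simp [smul_sub])
    (by intro a n n'; ext m; simp; abel)
    (by intro r a n; ext m; simp)

@[simp] lemma lt_apply (a : Mat2 F) (n : Y.Hm) (b : Mat2 F) :
    Y.lt a n b = n (bar a * b) + Y.c (a * b - b * a) (n 1) := rfl

/-- `eta n = n - nn ((1 - e) n(1))` -/
def eta : Y.Hm →ₗ[F] Y.Hm where
  toFun := fun n => n - Y.nn (n 1 - Y.e (n 1))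
  map_add' := by intro n n'; ext b; simp; abel
  map_smul' := by intro r n; ext b; simp [smul_sub]

@[simp] lemma eta_apply (n : Y.Hm) (b : Mat2 F) :
    Y.eta n b = n b - Y.c b (n 1 - Y.e (n 1)) := rfl

/-- the linear maps `n` with `e n(1) = n(1)` -/
def P : Submodule F Y.Hm where
  carrier := {n | Y.e (n 1) = n 1}
  add_mem' := by intro a b ha hb; simp only [Set.mem_setOf_eq] at *; simp [ha, hb]
  zero_mem' := by simp
  smul_mem' := by intro r a ha; simp only [Set.mem_setOf_eq] at *; simp [ha]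

lemma mem_P (n : Y.Hm) : n ∈ Y.P ↔ Y.e (n 1) = n 1 := Iff.rfl

lemma eta_mem (n : Y.Hm) : Y.eta n ∈ Y.P := by
  rw [mem_P]; simp [Y.e_idem]

lemma lt_one_apply (a : Mat2 F) (n : Y.Hm) : Y.lt a n 1 + Y.rt a n 1 = (a 0 0 + a 1 1) • n 1 := by
  rw [lt_apply, rt_apply, mul_one, one_mul, mul_one, sub_self, map_zero, LinearMap.zero_apply,
    add_zero, bar_apply, map_sub, map_smul]
  abel

lemma ltrt_mem (a : Mat2 F) (n : Y.Hm) (hn : n ∈ Y.P) : Y.lt a n + Y.rt a n ∈ Y.P := by
  rw [mem_P] at *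
  rw [LinearMap.add_apply, lt_one_apply, map_smul, hn]

/-- The left action `a (n, k) = (lt a k, lt a k + rt a k - eta (rt a n))`. -/
def bigLeft : Mat2 F →ₗ[F] (Y.Hm × Y.P) →ₗ[F] (Y.Hm × Y.P) :=
  LinearMap.mk₂ F (fun a q => (Y.lt a q.2,
      ⟨Y.lt a q.2 + Y.rt a q.2 - Y.eta (Y.rt a q.1),
        Y.P.sub_mem (Y.ltrt_mem a q.2 q.2.2) (Y.eta_mem _)⟩))
    (by intro a b q; ext1
        · simp
        · apply Subtype.ext; simp; abel)
    (by intro r a q; ext1
        · simp
        · apply Subtype.ext; simp [smul_sub])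
    (by intro a q q'; ext1
        · simp
        · apply Subtype.ext; simp; abel)
    (by intro r a q; ext1
        · simp
        · apply Subtype.ext; simp [smul_sub])

/-- The right action `(n, k) a = (rt a n, eta (rt a n))`. -/
def bigRight : Mat2 F →ₗ[F] (Y.Hm × Y.P) →ₗ[F] (Y.Hm × Y.P) :=
  LinearMap.mk₂ F (fun a q => (Y.rt a q.1, ⟨Y.eta (Y.rt a q.1), Y.eta_mem _⟩))
    (by intro a b q; ext1
        · simp
        · apply Subtype.ext; simp)
    (by intro r a q; ext1
        · simp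
        · apply Subtype.ext; simp)
    (by intro a q q'; ext1
        · simp
        · apply Subtype.ext; simp)
    (by intro r a q; ext1
        · simp
        · apply Subtype.ext; simp)

/-- The bimodule `Big(Y)`: pairs `(n, k)` of linear maps from 2 by 2 matrices to `Y` with
`e k(1) = k(1)`. -/
def Big : Bimod.{u, max u v} F where
  carrier := Y.Hm × Y.P
  left := Y.bigLeft
  right := Y.bigRight

/-- `ι(y) = (nn y, nn (e y))` -/
def iota : Y.carrier →ₗ[F] Y.Big.carrier :=
  (Y.nn).prod ((Y.nn ∘ₗ Y.e).codRestrict Y.P (by intro m; rw [mem_P]; simp [Y.e_idem]))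

/-- The sub-bimodule of `Big(Y)` generated by the `ι(y)`. -/
def irr : Bimod.{u, max u v} F :=
  Y.Big.ofSub (Y.Big.closure (Set.range Y.iota)) (Y.Big.closure_isSub _)

end

end Quad

end Pool.Agent.H158.RA
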