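import Mathlib

/-!
Right alternative bimodules over the algebra of two by two matrices: definitions.
-/

set_option autoImplicit false

namespace Pool.Agent.H158.RA

universe u v w

/-- The associative algebra of 2 by 2 matrices over `F`. -/
abbrev Mat2 (F : Type u) : Type u := Matrix (Fin 2) (Fin 2) F

/-- A bimodule over the algebra of 2 by 2 matrices over `F`: a vector space with a bilinear left
action (`left a m` is `a m`) and a bilinear right action (`right a m` is `m a`), no further axiom. -/
structure Bimod (F : Type u) [Field F] where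
  carrier : Type v
  [grp : AddCommGroup carrier]
  [mod : Module F carrier]
  left : Mat2 F →ₗ[F] carrier →ₗ[F] carrier
  right : Mat2 F →ₗ[F] carrier →ₗ[F] carrier

attribute [instance] Bimod.grp Bimod.mod

namespace Bimod

variable {F : Type u} [Field F]

/-- Multiplication `(a + m) (b + n) = a b + (a n + m b)` of the split null extension. -/
def nullMul (M : Bimod.{u, v} F) (x y : Mat2 F × M.carrier) : Mat2 F × M.carrier :=
  (x.1 * y.1, M.left x.1 y.2 + M.right y.1 x.2)

/-- The bimodule is right alternative: its split null extension satisfies `(xy)y = x(yy)`. -/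
def IsRightAlt (M : Bimod.{u, v} F) : Prop :=
  ∀ x y : Mat2 F × M.carrier, M.nullMul (M.nullMul x y) y = M.nullMul x (M.nullMul y y)

/-- A subspace stable under both actions. -/
def IsSub (M : Bimod.{u, v} F) (N : Submodule F M.carrier) : Prop :=
  ∀ (a : Mat2 F), ∀ m ∈ N, M.left a m ∈ N ∧ M.right a m ∈ N

/-- The bimodule is nonzero and its only sub-bimodules are zero and itself. -/
def IsIrred (M : Bimod.{u, v} F) : Prop :=
  Nontrivial M.carrier ∧ ∀ N : Submodule F M.carrier, M.IsSub N → N = ⊥ ∨ N = ⊤

/-- Isomorphism of bimodules: a linear bijection commuting with both actions. -/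
def Iso (M : Bimod.{u, v} F) (M' : Bimod.{u, w} F) : Prop :=
  ∃ φ : M.carrier ≃ₗ[F] M'.carrier, ∀ (a : Mat2 F) (m : M.carrier),
    φ (M.left a m) = M'.left a (φ m) ∧ φ (M.right a m) = M'.right a (φ m)

/-- A sub-bimodule as a bimodule. -/
def ofSub (M : Bimod.{u, v} F) (N : Submodule F M.carrier) (hN : M.IsSub N) : Bimod.{u, v} F where
  carrier := N
  left :=
    { toFun := fun a => (M.left a).restrict (fun m hm => (hN a m hm).1)
      map_add' := by intro a b; ext m; simp
      map_smul' := by intro a b; ext m; simp }
  right :=
    { toFun := fun a => (M.right a).restrict (fun m hm => (hN a m hm).2)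
      map_add' := by intro a b; ext m; simp
      map_smul' := by intro a b; ext m; simp }

/-- The smallest sub-bimodule containing a set. -/
def closure (M : Bimod.{u, v} F) (S : Set M.carrier) : Submodule F M.carrier :=
  sInf {N | M.IsSub N ∧ S ⊆ N}

lemma closure_isSub (M : Bimod.{u, v} F) (S : Set M.carrier) : M.IsSub (M.closure S) := by
  intro a m hm
  simp only [closure, Submodule.mem_sInf, Set.mem_setOf_eq] at hm ⊢
  exact ⟨fun N hN => (hN.1 a m (hm N hN)).1, fun N hN => (hN.1 a m (hm N hN)).2⟩

lemma subset_closure (M : Bimod.{u, v} F) (S : Set M.carrier) : S ⊆ M.closure S := by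
  intro x hx
  simp only [closure, SetLike.mem_coe, Submodule.mem_sInf, Set.mem_setOf_eq]
  exact fun N hN => hN.2 hx

lemma closure_le (M : Bimod.{u, v} F) {S : Set M.carrier} {N : Submodule F M.carrier}
    (hN : M.IsSub N) (h : S ⊆ N) : M.closure S ≤ N := sInf_le ⟨hN, h⟩

/-- The two identities which characterise right alternativity. -/
lemma isRightAlt_iff (M : Bimod.{u, v} F) : M.IsRightAlt ↔
    (∀ (b : Mat2 F) (m : M.carrier), M.right b (M.right b m) = M.right (b * b) m) ∧
    (∀ (a b : Mat2 F) (n : M.carrier),
      M.left (a * b) n + M.right b (M.left a n) = M.left a (M.left b n + M.right b n)) := by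
  constructor
  · intro h
    refine ⟨fun b m => ?_, fun a b n => ?_⟩
    · have := congrArg Prod.snd (h (0, m) (b, 0))
      simpa [nullMul] using this
    · have := congrArg Prod.snd (h (a, 0) (b, n))
      simpa [nullMul] using this
  · rintro ⟨h1, h2⟩ ⟨a, m⟩ ⟨b, n⟩
    have h3 := h2 a b n
    simp only [nullMul, mul_assoc, Prod.mk.injEq, true_and]
    rw [map_add (M.right b), h1, ← h3]
    abel

end Bimod

end Pool.Agent.H158.RA
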