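import Pool.Agent.H158.RA.Big

/-!
The five exceptional irreducible right alternative bimodules.
-/

set_option autoImplicit false

namespace Pool.Agent.H158.RA

universe u v w

open Matrix

variable (F : Type u) [Field F]

/-- The one-dimensional bimodule with zero actions. -/
def zeroB : Bimod.{u, u} F where
  carrier := F
  left := 0
  right := 0

/-- The rows: `a m = 0` and `m a` is the product of the row `m` and the matrix `a`. -/
def rowB : Bimod.{u, u} F where
  carrier := Fin 2 → F
  left := 0
  right := LinearMap.mk₂ F (fun a m => m ᵥ* a) (fun a b m => Matrix.vecMul_add a b m)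
    (fun r a m => Matrix.vecMul_smul m r a) (fun a m m' => Matrix.add_vecMul a m m')
    (fun r a m => Matrix.smul_vecMul r m a)

/-- The columns with `a m` the product of the matrix `a` and the column `m`, and `m a = 0`. -/
def leftB : Bimod.{u, u} F where
  carrier := Fin 2 → F
  left := LinearMap.mk₂ F (fun a m => a *ᵥ m) (fun a b m => Matrix.add_mulVec a b m)
    (fun r a m => Matrix.smul_mulVec r a m) (fun a m m' => Matrix.mulVec_add a m m')
    (fun r a m => Matrix.mulVec_smul a r m)
  right := 0

/-- The regular bimodule: the 2 by 2 matrices with the matrix products. -/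
def regB : Bimod.{u, u} F where
  carrier := Mat2 F
  left := LinearMap.mul F (Mat2 F)
  right := (LinearMap.mul F (Mat2 F)).flip

/-- The six-dimensional space of the linear maps `n` from 2 by 2 matrices to columns with
`n(1) = 0`. -/
def sixV : Submodule F (Mat2 F →ₗ[F] (Fin 2 → F)) where
  carrier := {n | n 1 = 0}
  add_mem' := by
    intro a b ha hb
    have ha' : a 1 = 0 := ha
    have hb' : b 1 = 0 := hb
    change (a + b) 1 = 0
    rw [LinearMap.add_apply, ha', hb', add_zero]
  zero_mem' := rfl
  smul_mem' := by
    intro r a ha
    have ha' : a 1 = 0 := ha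
    change (r • a) 1 = 0
    rw [LinearMap.smul_apply, ha', smul_zero]

/-- `b ↦ n(bar(a) b) - b n(bar(a))` -/
def sixLeft (a : Mat2 F) (n : Mat2 F →ₗ[F] (Fin 2 → F)) : Mat2 F →ₗ[F] (Fin 2 → F) :=
  n ∘ₗ LinearMap.mulLeft F (Quad.bar a) - (Matrix.mulVecBilin F F).flip (n (Quad.bar a))

/-- `b ↦ n(b a) - b n(a)` -/
def sixRight (a : Mat2 F) (n : Mat2 F →ₗ[F] (Fin 2 → F)) : Mat2 F →ₗ[F] (Fin 2 → F) :=
  n ∘ₗ LinearMap.mulRight F a - (Matrix.mulVecBilin F F).flip (n a)

variable {F} in
lemma sixLeft_apply (a b : Mat2 F) (n : Mat2 F →ₗ[F] (Fin 2 → F)) :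
    sixLeft F a n b = n (Quad.bar a * b) - b *ᵥ n (Quad.bar a) := rfl

variable {F} in
lemma sixRight_apply (a b : Mat2 F) (n : Mat2 F →ₗ[F] (Fin 2 → F)) :
    sixRight F a n b = n (b * a) - b *ᵥ n a := rfl

/-- The six-dimensional bimodule: the linear maps `n` from 2 by 2 matrices to columns with
`n(1) = 0`, with `(a n)(b) = n(bar(a) b) - b n(bar(a))` and `(n a)(b) = n(b a) - b n(a)`. -/
def sixB : Bimod.{u, u} F where
  carrier := sixV F
  left := LinearMap.mk₂ F (fun a n => (⟨sixLeft F a n, by
        change sixLeft F a n 1 = 0
        simp [sixLeft_apply]⟩ : sixV F))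
    (by intro a b n; apply Subtype.ext; refine LinearMap.ext fun m => ?_
        change sixLeft F (a + b) n m = sixLeft F a n m + sixLeft F b n m
        simp only [sixLeft_apply, map_add, add_mul, Matrix.mulVec_add]; abel)
    (by intro r a n; apply Subtype.ext; refine LinearMap.ext fun m => ?_
        change sixLeft F (r • a) n m = r • sixLeft F a n m
        simp only [sixLeft_apply, map_smul, smul_mul_assoc, Matrix.mulVec_smul, smul_sub])
    (by intro a n n'; apply Subtype.ext; refine LinearMap.ext fun m => ?_
        change sixLeft F a (n + n') m = sixLeft F a n m + sixLeft F a n' m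
        simp only [sixLeft_apply, LinearMap.add_apply, Matrix.mulVec_add]; abel)
    (by intro r a n; apply Subtype.ext; refine LinearMap.ext fun m => ?_
        change sixLeft F a (r • (n : Mat2 F →ₗ[F] (Fin 2 → F))) m = r • sixLeft F a n m
        simp only [sixLeft_apply, LinearMap.smul_apply, Matrix.mulVec_smul, smul_sub])
  right := LinearMap.mk₂ F (fun a n => (⟨sixRight F a n, by
        change sixRight F a n 1 = 0
        simp [sixRight_apply]⟩ : sixV F))
    (by intro a b n; apply Subtype.ext; refine LinearMap.ext fun m => ?_
        change sixRight F (a + b) n m = sixRight F a n m + sixRight F b n m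
        simp only [sixRight_apply, map_add, mul_add, Matrix.mulVec_add]; abel)
    (by intro r a n; apply Subtype.ext; refine LinearMap.ext fun m => ?_
        change sixRight F (r • a) n m = r • sixRight F a n m
        simp only [sixRight_apply, map_smul, mul_smul_comm, Matrix.mulVec_smul, smul_sub])
    (by intro a n n'; apply Subtype.ext; refine LinearMap.ext fun m => ?_
        change sixRight F a (n + n') m = sixRight F a n m + sixRight F a n' m
        simp only [sixRight_apply, LinearMap.add_apply, Matrix.mulVec_add]; abel)
    (by intro r a n; apply Subtype.ext; refine LinearMap.ext fun m => ?_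
        change sixRight F a (r • (n : Mat2 F →ₗ[F] (Fin 2 → F))) m = r • sixRight F a n m
        simp only [sixRight_apply, LinearMap.smul_apply, Matrix.mulVec_smul, smul_sub])

lemma sixB_left (a : Mat2 F) (n : sixV F) :
    (sixV F).subtype ((sixB F).left a n) = sixLeft F a n := rfl

lemma sixB_right (a : Mat2 F) (n : sixV F) :
    (sixV F).subtype ((sixB F).right a n) = sixRight F a n := rfl

end Pool.Agent.H158.RA
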