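import Pool.Agent.H158.RA.Exc

/-!
Statements of the parts of the classification (to be proved in separate files).
-/

set_option autoImplicit false

namespace Pool.Agent.H158.RA

universe u v w

open Matrix

/-- SPLIT: an irreducible right alternative bimodule is either associative or its right action is
multiplicative in the other order. -/
def S_split : Prop := ∀ (F : Type u) [Field F] (M : Bimod.{u, v} F), (2 : F) ≠ 0 →
  M.IsRightAlt → M.IsIrred →
  ((∀ m, M.right 1 m = m) ∧ ∀ (a b : Mat2 F) (m : M.carrier),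
      M.right (a * b) m = M.right b (M.right a m) ∧
      M.left (a * b) m = M.left a (M.left b m) ∧
      M.left a (M.right b m) = M.right b (M.left a m)) ∨
  (∀ (a b : Mat2 F) (m : M.carrier), M.right (a * b) m = M.right a (M.right b m))

/-- ASSOC: the associative alternative gives the rows or the regular bimodule. -/
def S_assoc : Prop := ∀ (F : Type u) [Field F] (M : Bimod.{u, v} F), M.IsIrred →
  (∀ m, M.right 1 m = m) → (∀ (a b : Mat2 F) (m : M.carrier),
      M.right (a * b) m = M.right b (M.right a m) ∧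
      M.left (a * b) m = M.left a (M.left b m) ∧
      M.left a (M.right b m) = M.right b (M.left a m)) →
  M.Iso (rowB F) ∨ M.Iso (regB F)

/-- ZERO: zero actions. -/
def S_zero : Prop := ∀ (F : Type u) [Field F] (M : Bimod.{u, v} F), M.IsIrred →
  (∀ (a : Mat2 F) (m : M.carrier), M.left a m = 0 ∧ M.right a m = 0) → M.Iso (zeroB F)

/-- LEFT: zero right action, associative unital left action. -/
def S_left : Prop := ∀ (F : Type u) [Field F] (M : Bimod.{u, v} F), M.IsIrred →
  (∀ (a : Mat2 F) (m : M.carrier), M.right a m = 0) → (∀ m, M.left 1 m = m) →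
  (∀ (a b : Mat2 F) (m : M.carrier), M.left (a * b) m = M.left a (M.left b m)) →
  M.Iso (leftB F)

/-- SIX: the unital irreducible bimodules of the second kind on which
`Σ_{i,j} R(E_ij) L(E_ji)` is the identity. -/
def S_six : Prop := ∀ (F : Type u) [Field F] (M : Bimod.{u, v} F), (2 : F) ≠ 0 → M.IsIrred →
  (∀ (a b : Mat2 F) (m : M.carrier), M.right (a * b) m = M.right a (M.right b m)) →
  (∀ (a b : Mat2 F) (n : M.carrier),
      M.left (a * b) n + M.right b (M.left a n) = M.left a (M.left b n + M.right b n)) →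
  (∀ (a b : Mat2 F) (n : M.carrier), M.left a (M.right b (M.left b n)) =
      M.right b (M.left (a * b) n)) →
  (∀ m, M.right 1 m = m) → (∀ m, M.left 1 m = m) →
  (∀ m, ∑ i : Fin 2, ∑ j : Fin 2,
      M.right (Matrix.single i j 1) (M.left (Matrix.single j i 1) m) = m) →
  M.Iso (sixB F)

/-- EXC: the five exceptional bimodules are right alternative, irreducible and pairwise not
isomorphic. -/
def S_exc : Prop := ∀ (F : Type u) [Field F], (2 : F) ≠ 0 →
  (((zeroB F).IsRightAlt ∧ (zeroB F).IsIrred) ∧ ((rowB F).IsRightAlt ∧ (rowB F).IsIrred) ∧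
    ((leftB F).IsRightAlt ∧ (leftB F).IsIrred) ∧ ((regB F).IsRightAlt ∧ (regB F).IsIrred) ∧
    ((sixB F).IsRightAlt ∧ (sixB F).IsIrred)) ∧
  (¬ (zeroB F).Iso (rowB F) ∧ ¬ (zeroB F).Iso (leftB F) ∧ ¬ (zeroB F).Iso (regB F) ∧
    ¬ (zeroB F).Iso (sixB F) ∧ ¬ (rowB F).Iso (leftB F) ∧ ¬ (rowB F).Iso (regB F) ∧
    ¬ (rowB F).Iso (sixB F) ∧ ¬ (leftB F).Iso (regB F) ∧ ¬ (leftB F).Iso (sixB F) ∧
    ¬ (regB F).Iso (sixB F))

end Pool.Agent.H158.RA
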